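import Pool.Agent.Lib.MP_5c318e_ag.S.CVA
import Pool.Agent.Lib.MP_5c318e_ag.S.CCov
import Pool.Agent.Lib.MP_5c318e_ag.S.BVal

/-! The volume of an image is at most the integral of the Jacobian. -/

set_option autoImplicit false

namespace Pool.Agent.Lib.MP_5c318e_ag

open MeasureTheory Set Filter Topology
open scoped ENNReal

/-- the image inequality on a Riemann domain -/
theorem RD.img_le {ι : Type} [Fintype ι] [DecidableEq ι] {S : Type} [TopologicalSpace S]
    [MeasurableSpace S] [BorelSpace S] [T2Space S] [SigmaCompactSpace S] (D : RD ι S)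
    {g : S → ι → ℂ} {G : Set S} (hG : MeasurableSet G)
    (hg : ∀ p ∈ G, DifferentiableAt ℂ (fun z => g (D.sec p z)) (D.π p)) :
    volume (g '' G) ≤ ∫⁻ p in G, ENNReal.ofReal (‖D.jac g p‖ ^ 2) ∂D.μ := by
  have := RArea.sc D
  obtain ⟨A, a1, a2, a3, a4⟩ := RArea.cover hG (fun x => (D.ch x).source)
    fun x _ => (D.ch x).open_source.mem_nhds (D.mem_src x)
  have hs : ∀ n, A n ⊆ G := fun n => a3 ▸ subset_iUnion A n
  rw [← a3, image_iUnion, lintegral_iUnion a1 a2]
  refine (measure_iUnion_le _).trans (ENNReal.tsum_le_tsum fun n => ?_)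
  rcases a4 n with h | ⟨x, -, h⟩
  · simp [h]
  let φ : (ι → ℂ) → ι → ℂ := fun z => g (D.sec x z)
  have hd : ∀ z ∈ D.π '' A n,
      HasFDerivWithinAt φ ((fderiv ℂ φ z).restrictScalars ℝ) (D.π '' A n) z := by
    rintro _ ⟨p, hp, rfl⟩
    exact (((hg p (hs n hp)).congr_of_eventuallyEq
      (RArea.germ' D g (h hp))).hasFDerivAt.restrictScalars ℝ).hasFDerivWithinAt
  have him : g '' A n = φ '' (D.π '' A n) := by
    rw [image_image]
    exact image_congr fun p hp => by simp only [φ, RD.sec_π (h hp)]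
  rw [him]
  refine (addHaar_image_le_lintegral_abs_det_fderiv volume (RArea.img_meas D (a1 n)) hd).trans ?_
  rw [← RArea.lint D (a1 n) ((D.injOn_src x).mono h)]
  refine le_of_eq (setLIntegral_congr_fun (a1 n) fun p hp => ?_)
  simp only [RArea.det_real, RD.jac, RArea.fd_eq D _ (h hp), φ]

variable {δ ν K M : Type} [Fintype δ] [DecidableEq δ] [Fintype ν] [DecidableEq ν]
  [Field K] [Algebra ℂ K] [Field M] [Algebra ℂ M] [Algebra K M] {B : Cht δ K}

/-- the image inequality on a fibre -/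
theorem Rel.img_fib (T : Rel B ν M) (b : Pt B.O) (l : ν → T.X.O) {G : Set (T.Fib b)}
    (hG : MeasurableSet G) : volume ((fun (p : T.Fib b) j => p.1 (l j)) '' G) ≤
      ∫⁻ p in G, ENNReal.ofReal (‖p.1.ev (Jac T.dx fun j => (l j : M))‖ ^ 2) ∂(T.fib b).μ := by
  have hj := fun p : T.Fib b => (T.cvEv b).jac (p := p) (f := fun j => (l j : M))
    (g := fun (p : T.Fib b) j => p.1 (l j)) (fun j => p.1.reg_coe _)
    (.of_forall fun q j => (q.1.ev_coe _).symm)
  refine ((T.fib b).img_le hG fun p _ => (hj p).1).trans (le_of_eq ?_)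
  simp only [fun p => (hj p).2]

theorem Rel.jac_tot [IsScalarTower ℂ K M] (T : Rel B ν M) (l : ν → M) :
    Jac T.X.der (Sum.elim (fun i => algebraMap K M (B.z i)) l) = Jac T.dx l := by
  have hM : Dual ℂ (Sum.elim (fun i => algebraMap K M (B.z i)) T.x) T.X.der := by
    convert T.X.dual using 1
    funext i
    rcases i with i | i
    · exact (T.zy_coe i).symm
    · rfl
  rw [B.dual.jac_split T.dual hM, B.dual.jac_one, map_one, one_mul]

/-- the image inequality on the total space -/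
theorem Rel.img_tot [IsScalarTower ℂ K M] (T : Rel B ν M) (l : ν → T.X.O) {G : Set (Pt T.X.O)}
    (hG : MeasurableSet G) :
    ((volume : Measure (δ → ℂ)).prod (volume : Measure (ν → ℂ)))
      ((fun p : Pt T.X.O => (B.D.π (p.res T.inc), fun j => p (l j))) '' G) ≤
      ∫⁻ p in G, ENNReal.ofReal (‖p.ev (Jac T.dx fun j => (l j : M))‖ ^ 2) ∂T.X.D.μ := by
  let g : Pt T.X.O → δ ⊕ ν → ℂ := fun p => Sum.elim (B.D.π (p.res T.inc)) fun j => p (l j)
  have hr : ∀ (p : Pt T.X.O) i, p.Reg (Sum.elim (fun i => algebraMap K M (B.z i))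
      (fun j => (l j : M)) i) ∧ g p i =
        p.ev (Sum.elim (fun i => algebraMap K M (B.z i)) (fun j => (l j : M)) i) := by
    rintro p (i | i)
    · simp only [Sum.elim_inl, g, ← T.inc_eq, B.π_eq]
      exact ⟨p.reg_coe _, (p.ev_coe _).symm⟩
    · exact ⟨p.reg_coe _, (p.ev_coe _).symm⟩
  have hj := fun p : Pt T.X.O => T.X.cvEv.jac (p := p) (g := g) (fun i => (hr p i).1)
    (.of_forall fun q i => (hr q i).2)
  have e := (volume_measurePreserving_sumPiEquivProdPi (fun _ : δ ⊕ ν => ℂ)).measure_preimage_equiv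
    ((fun p : Pt T.X.O => (B.D.π (p.res T.inc), fun j => p (l j))) '' G)
  rw [← Measure.volume_eq_prod, ← e]
  refine le_trans (measure_mono ?_) ((T.X.D.img_le hG fun p _ => (hj p).1).trans (le_of_eq ?_))
  · rintro z ⟨p, hp, hz⟩
    refine ⟨p, hp, funext fun i => ?_⟩
    rcases i with i | i
    · exact congrFun (congrArg Prod.fst hz) i
    · exact congrFun (congrArg Prod.snd hz) i
  · simp only [fun p => (hj p).2, T.jac_tot, id]

end Pool.Agent.Lib.MP_5c318e_ag
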