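import Pool.Agent.Lib.MP_5c318e_ag.Np.NDefs
import Pool.Agent.Lib.MP_5c318e_ag.A.Split
import Pool.Agent.Lib.MP_5c318e_ag.Me.Lsq

/-! A pole of a vector field at a prime at infinity is seen by three-term lists. -/

set_option autoImplicit false
set_option linter.unusedSectionVars false

namespace Pool.Agent.Lib.MP_5c318e_ag

open Set

noncomputable section

namespace Noe.Uni

section alg

variable {R M α K ν : Type} [CommRing R] [Algebra ℂ R] [Field M] [Algebra ℂ M]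
  {O : Subalgebra ℂ M} [Field K] [Algebra R K] [Algebra K M] {inc : R →ₐ[ℂ] O} {z : α → O}
  [DecidableEq ν] {N : Noe K inc ν z} {j0 : ν} (U : N.Uni j0)

/-- the adapted coordinates at a prime at infinity -/
def co (V : N.DD) : ν → M := Function.update (fun j => (N.l j : M) / N.l j0) j0 (U.π V)

theorem vπ_lt (V : N.DD) : V.1.valuation (U.π V) < 1 := by
  simpa using (U.adp V).lt

theorem vπ_pos (V : N.DD) : 0 < V.1.valuation (U.π V) := by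
  have := (U.adp V).ne_zero j0
  rw [Function.update_self] at this
  exact zero_lt_iff.2 ((Valuation.ne_zero_iff _).2 this)

/-- comparison of orders -/
theorem od_le_iff (V : N.DD) {φ ψ : M} (hφ : φ ≠ 0) (hψ : ψ ≠ 0) (k : ℕ) :
    φ / ψ ^ k ∈ V.1 ↔ k * U.od V ψ ≤ U.od V φ := by
  rw [← V.1.valuation_le_one_iff, map_div₀, map_pow, U.val V φ hφ, U.val V ψ hψ, ← zpow_natCast,
    ← zpow_mul, ← zpow_sub₀ (U.vπ_pos V).ne', zpow_le_one_iff_right_of_lt_one₀ (U.vπ_pos V)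
      (U.vπ_lt V), sub_nonneg, mul_comm]

theorem od_one' (V : N.DD) : U.od V 1 = 0 := by
  have h := U.val V 1 one_ne_zero
  rw [map_one, eq_comm, zpow_eq_one_iff_right₀ zero_le (U.vπ_lt V).ne] at h
  exact h

include U in
theorem exists_frac (V : N.DD) {f : M} (hf : f ≠ 0) :
    ∃ Y n : O, Y ≠ 0 ∧ n ≠ 0 ∧ (Y : M)⁻¹ ∈ V.1 ∧ (n : M) / Y = f := by
  obtain ⟨a, b, hb, e⟩ := N.frac f
  have hb' : (b : M) ≠ 0 := fun h => hb (Subtype.ext h)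
  have hl : (N.l j0 : M) ≠ 0 := N.basis.1.ne_zero j0
  have hl' : N.l j0 ≠ 0 := fun h => hl (by rw [h]; rfl)
  have ha : a ≠ 0 := fun h => mul_ne_zero hf hb' (by rw [e, h]; rfl)
  refine ⟨b * N.l j0 ^ (U.od V b).natAbs, a * N.l j0 ^ (U.od V b).natAbs,
    mul_ne_zero hb (pow_ne_zero _ hl'), mul_ne_zero ha (pow_ne_zero _ hl'), ?_, ?_⟩
  · push_cast
    rw [← V.1.valuation_le_one_iff, map_inv₀, map_mul, map_pow, U.val V _ hb', U.val V _ hl, U.od_l,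
      ← zpow_natCast, ← zpow_mul, ← zpow_add₀ (U.vπ_pos V).ne', ← zpow_neg,
      zpow_le_one_iff_right_of_lt_one₀ (U.vπ_pos V) (U.vπ_lt V)]
    have h1 : (1 : ℤ) ≤ U.e V := by exact_mod_cast U.pos V
    have h2 : U.od V b ≤ ((U.od V b).natAbs : ℤ) := Int.le_natAbs
    nlinarith [Int.natCast_nonneg (U.od V b).natAbs]
  · push_cast
    rw [← e]
    field_simp

/-- a derivation that does not preserve `V` has a pole on an adapted coordinate -/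
theorem exists_pole [Algebra ℂ K] [IsScalarTower ℂ K M] {σ : Type} {w : σ → K}
    (hw : IsTranscendenceBasis ℂ w) (v : Derivation ℂ M M) {V : N.DD}
    (ht : ∀ i, v (algebraMap K M (w i)) ∈ V.1) (hV : ¬ ∀ φ ∈ V.1, v φ ∈ V.1) :
    ∃ j, v (U.co V j) ∉ V.1 := by
  by_contra h
  push Not at h
  refine hV fun φ hφ => ((U.adp V).horiz hw).der_mem v ?_ hφ
  rintro (i | j)
  exacts [ht i, h j]

variable [Fintype ν] {V : N.DD} {s : Finset M} {A : ℝ} {p : Pt O}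

theorem rp_le (V : N.DD) {x : ℝ} (hx : 1 ≤ x) {a b : ℤ} (h : a ≤ b) :
    x ^ (-(b : ℝ) / U.e V) ≤ x ^ (-(a : ℝ) / U.e V) :=
  Real.rpow_le_rpow_of_exponent_le hx (div_le_div_of_nonneg_right
    (neg_le_neg (by exact_mod_cast h)) (Nat.cast_nonneg _))

/-- the pole is read at the points of type `V` -/
theorem vis_low (h : ∀ φ ∈ s, p.Reg φ ∧ ‖p.ev φ‖ ≤ A * ‖N.L p‖ ^ (-(U.od V φ : ℝ) / U.e V) ∧
      ‖N.L p‖ ^ (-(U.od V φ : ℝ) / U.e V) ≤ A * ‖p.ev φ‖) (hA : 1 ≤ A) (hL : 1 ≤ ‖N.L p‖)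
    {Y n g : O} (sY : (Y : M) ∈ s) (sn : (n : M) ∈ s) (sg : (g : M) ∈ s) (Y0 : Y ≠ 0) (n0 : n ≠ 0)
    (h1 : (Y : M)⁻¹ ∈ V.1) (h2 : (n : M) / Y ∈ V.1) (h3 : (g : M) / Y ^ 2 ∉ V.1) {q : ℝ}
    (hq : ‖p g‖ ^ 2 ≤ (1 + ‖p Y‖ ^ 2 + ‖p n‖ ^ 2) ^ 2 * q) :
    ‖N.L p‖ ^ (2 / U.e V : ℝ) ≤ 9 * A ^ 6 * q := by
  have Y0' : (Y : M) ≠ 0 := fun e => Y0 (Subtype.ext e)
  have n0' : (n : M) ≠ 0 := fun e => n0 (Subtype.ext e)
  have g0 : (g : M) ≠ 0 := fun e => h3 (by rw [e, zero_div]; exact zero_mem _)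
  have o1 : U.od V Y ≤ 0 := by
    simpa [U.od_one'] using (U.od_le_iff V one_ne_zero Y0' 1).1 (by simpa using h1)
  have o2 : U.od V Y ≤ U.od V n := by
    simpa using (U.od_le_iff V n0' Y0' 1).1 (by simpa using h2)
  have o3 : U.od V g ≤ 2 * U.od V Y - 1 := by
    have := (U.od_le_iff V g0 Y0' 2).not.1 h3
    push_cast at this
    omega
  obtain ⟨-, bY, -⟩ := h _ sY
  obtain ⟨-, bn, -⟩ := h _ sn
  obtain ⟨-, -, bg⟩ := h _ sg
  rw [p.ev_coe] at bY bn bg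
  set x := ‖N.L p‖
  have x0 : 0 < x := one_pos.trans_le hL
  set y := x ^ (-(U.od V Y : ℝ) / U.e V) with hy
  have y1 : 1 ≤ y := by simpa using U.rp_le V hL o1
  have bn' : ‖p n‖ ≤ A * y := bn.trans (mul_le_mul_of_nonneg_left (U.rp_le V hL o2) (by linarith))
  have bg' : x ^ (1 / U.e V : ℝ) * y ^ 2 ≤ A * ‖p g‖ := by
    refine le_trans (le_of_eq ?_) ((U.rp_le V hL o3).trans bg)
    rw [hy, ← Real.rpow_natCast, ← Real.rpow_mul x0.le, ← Real.rpow_add x0]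
    congr 1
    push_cast
    ring
  have Ay : 1 ≤ A * y := one_le_mul_of_one_le_of_one_le hA y1
  have b3 : 1 + ‖p Y‖ ^ 2 + ‖p n‖ ^ 2 ≤ 3 * (A * y) ^ 2 := by
    have := pow_le_pow_left₀ (norm_nonneg _) bY 2
    have := pow_le_pow_left₀ (norm_nonneg _) bn' 2
    nlinarith
  have t0 : 0 < x ^ (1 / U.e V : ℝ) * y ^ 2 := by positivity
  have b4 := pow_le_pow_left₀ t0.le bg' 2
  have q0 : 0 ≤ q := by
    by_contra hn
    have : (1 + ‖p Y‖ ^ 2 + ‖p n‖ ^ 2) ^ 2 * q < 0 :=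
      mul_neg_of_pos_of_neg (by positivity) (not_le.1 hn)
    nlinarith [sq_nonneg ‖p g‖]
  have b5 : ‖p g‖ ^ 2 ≤ (3 * (A * y) ^ 2) ^ 2 * q :=
    hq.trans (mul_le_mul_of_nonneg_right (pow_le_pow_left₀ (by positivity) b3 2) q0)
  have e2 : x ^ (2 / U.e V : ℝ) = (x ^ (1 / U.e V : ℝ)) ^ 2 := by
    rw [← Real.rpow_natCast, ← Real.rpow_mul x0.le]
    congr 1
    push_cast
    ring
  rw [e2]
  refine le_of_mul_le_mul_right ?_ (show 0 < y ^ 4 by positivity)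
  calc _ = (x ^ (1 / U.e V : ℝ) * y ^ 2) ^ 2 := by ring
    _ ≤ A ^ 2 * ‖p g‖ ^ 2 := b4.trans_eq (by ring)
    _ ≤ A ^ 2 * ((3 * (A * y) ^ 2) ^ 2 * q) := mul_le_mul_of_nonneg_left b5 (by positivity)
    _ = _ := by ring

/-- the density against the Jacobian of the projection at the points of type `V` -/
theorem rho_low (h : ∀ φ ∈ s, p.Reg φ ∧ ‖p.ev φ‖ ≤ A * ‖N.L p‖ ^ (-(U.od V φ : ℝ) / U.e V) ∧
      ‖N.L p‖ ^ (-(U.od V φ : ℝ) / U.e V) ≤ A * ‖p.ev φ‖) (hA : 1 ≤ A) (hL : 0 < ‖N.L p‖)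
    {τ J : M} (sτ : τ ∈ s) (sJ : J ∈ s) {m Bs : ℝ} (hm : 1 ≤ m) (hB : ‖p.ev τ‖ ^ 2 ≤ Bs) :
    ‖N.L p‖ ^ (2 * ((U.od V J : ℝ) - U.od V τ / m) / U.e V) * ‖p.ev J‖ ^ 2 ≤
      A ^ 4 * Bs ^ (1 / m) := by
  obtain ⟨-, bJ, -⟩ := h _ sJ
  obtain ⟨-, -, bτ⟩ := h _ sτ
  set x := ‖N.L p‖
  have m0 : 0 < m := one_pos.trans_le hm
  have A0 : 0 < A := one_pos.trans_le hA
  have b1 : (x ^ (-(U.od V τ : ℝ) / U.e V)) ^ (2 / m) ≤ A ^ 2 * Bs ^ (1 / m) := by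
    refine (Real.rpow_le_rpow (by positivity) bτ (by positivity)).trans ?_
    rw [Real.mul_rpow A0.le (norm_nonneg _)]
    refine mul_le_mul ?_ ?_ (by positivity) (by positivity)
    · rw [← Real.rpow_two]
      exact Real.rpow_le_rpow_of_exponent_le hA (div_le_self zero_le_two hm)
    · rw [div_eq_mul_one_div, Real.rpow_mul (norm_nonneg _), Real.rpow_two]
      exact Real.rpow_le_rpow (by positivity) hB (by positivity)
  calc _ ≤ x ^ (2 * ((U.od V J : ℝ) - U.od V τ / m) / U.e V) *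
        (A * x ^ (-(U.od V J : ℝ) / U.e V)) ^ 2 :=
        mul_le_mul_of_nonneg_left (pow_le_pow_left₀ (norm_nonneg _) bJ 2) (by positivity)
    _ = A ^ 2 * (x ^ (-(U.od V τ : ℝ) / U.e V)) ^ (2 / m) := by
        rw [mul_pow, mul_left_comm, ← Real.rpow_natCast (x ^ _), ← Real.rpow_mul hL.le,
          ← Real.rpow_mul hL.le, ← Real.rpow_add hL]
        congr 2
        push_cast
        ring
    _ ≤ A ^ 2 * (A ^ 2 * Bs ^ (1 / m)) := mul_le_mul_of_nonneg_left b1 (by positivity)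
    _ = _ := by ring

end alg

variable {ι R M α K ν : Type} [Fintype ι] [DecidableEq ι] [CommRing R] [Algebra ℂ R] [Field M]
  [Algebra ℂ M] {c : Cht ι M} [Field K] [Algebra R K] [Algebra K M] [Algebra ℂ K]
  [IsScalarTower ℂ K M] {inc : R →ₐ[ℂ] c.O} {z : α → c.O} [DecidableEq ν] {N : Noe K inc ν z}
  {j0 : ν} (U : N.Uni j0)

include U in
/-- the lists `(1, Y, n)` are fixed before the vector field -/
theorem exists_vis {σ : Type} {w : σ → K} (hw : IsTranscendenceBasis ℂ w) :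
    ∃ Y n : N.DD → ν → c.O, ∀ (v : Derivation ℂ M M) (W : Pt c.O → ι → ℂ) (q : Pt c.O → ℝ),
      (∀ a ∈ c.O, v a ∈ c.O) → (∀ (a : c.O) p, c.D.vd W (fun x => x a) p = p.ev (v a)) →
      ∀ V : N.DD, (∀ i, v (algebraMap K M (w i)) ∈ V.1) → (¬ ∀ φ ∈ V.1, v φ ∈ V.1) →
      (∀ j p, c.D.levi (fun x => Real.log (1 + ‖x (Y V j)‖ ^ 2 + ‖x (n V j)‖ ^ 2)) p (W p) ≤ q p) →
      ∃ Y n g : c.O, Y ≠ 0 ∧ n ≠ 0 ∧ (Y : M)⁻¹ ∈ V.1 ∧ (n : M) / Y ∈ V.1 ∧ (g : M) / Y ^ 2 ∉ V.1 ∧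
        ∀ p : Pt c.O, ‖p g‖ ^ 2 ≤ (1 + ‖p Y‖ ^ 2 + ‖p n‖ ^ 2) ^ 2 * q p := by
  choose Y n Y0 n0 h1 h2 using fun V j => U.exists_frac V ((U.adp V).ne_zero j)
  refine ⟨Y, n, fun v W q hv hW V ht hV hq => ?_⟩
  obtain ⟨j, hj⟩ := U.exists_pole hw v ht hV
  let a : c.O := ⟨v (Y V j), hv _ (Y V j).2⟩
  let b : c.O := ⟨v (n V j), hv _ (n V j).2⟩
  have Y0' : (Y V j : M) ≠ 0 := fun e => Y0 V j (Subtype.ext e)
  refine ⟨Y V j, n V j, Y V j * b - n V j * a, Y0 V j, n0 V j, h1 V j,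
    (h2 V j).symm ▸ (U.adp V).mem j, fun h => hj ?_, fun p => ?_⟩
  · rw [co, ← h2 V j, Derivation.leibniz_div]
    convert h using 1
    simp only [a, b, smul_eq_mul, Subalgebra.coe_sub, Subalgebra.coe_mul]
    field_simp
  · let Z : Fin 3 → Pt c.O → ℂ := ![fun x => x 1, fun x => x (Y V j), fun x => x (n V j)]
    have hZ : ∀ i, c.D.Hol (Z i) := fun i => by fin_cases i <;> exact c.hol _
    have eZ : ∀ x, ∑ i, ‖Z i x‖ ^ 2 = 1 + ‖x (Y V j)‖ ^ 2 + ‖x (n V j)‖ ^ 2 := fun x => by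
      simp [Z, Fin.sum_univ_three]
    have key := RD.lsq_vis hZ (x := p) (by rw [eZ]; positivity) (W p) 1 2
    simp only [eZ, ← (hZ _).vd_fd] at key
    refine le_trans (le_of_eq ?_) (key.trans (mul_le_mul_of_nonneg_left (hq j p) (sq_nonneg _)))
    have ea := (hW (Y V j) p).trans (p.ev_coe a)
    have eb := (hW (n V j) p).trans (p.ev_coe b)
    rw [map_sub, map_mul, map_mul, ← ea, ← eb]
    rfl

end Noe.Uni

end

end Pool.Agent.Lib.MP_5c318e_ag
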